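import Pool.Agent.TH455.ExBMain

set_option autoImplicit false

/-!
The maximum of the list packing number over bipartite planar graphs is four.
-/

namespace Pool.Agent.Results.MP_e21097_co.BipartiteFour

open Pool.Agent.TH455
open Pool.Agent.H239R2.Planar (HasStraightLineDrawing)

/-- The maximum of the list packing number over all finite bipartite graphs with a straight-line
drawing in the plane is `4`; the upper bound also holds for all finite bipartite graphs without
`K₅` and `K₃,₃` minors. -/
theorem result :
    IsGreatest {k : ℕ | ∃ (V : Type) (_ : Fintype V) (G : SimpleGraph V),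
      HasStraightLineDrawing G ∧ G.Colorable 2 ∧ listPackingNumber G = k} 4 ∧
    ∀ (V : Type) [Fintype V] (G : SimpleGraph V), HasStraightLineDrawing G ∨ NoKMinor G →
      G.Colorable 2 → ListPackable G 4 := by
  refine ⟨⟨⟨Fin 52, inferInstance, ExB.G, ExB.drawing, ExB.bipartite, ExB.four⟩, ?_⟩, ExB.up⟩
  rintro k ⟨V, _, G, h1, h2, rfl⟩
  exact listPackingNumber_le (by norm_num) (ExB.up V G (Or.inl h1) h2)

end Pool.Agent.Results.MP_e21097_co.BipartiteFour
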